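import Pool.Agent.P.MP_61a291_nt.Chk

namespace Pool.Agent.P.MP_61a291_nt

open Finset

def phi (e : ℕ) : ℚ := ((e : ℚ) + 1) / ((e : ℚ) - 1)

def tailG (j : ℕ) : ℚ := (2 : ℚ) ^ j / ((2 : ℚ) ^ j - 4)

noncomputable def W (y : ℕ) (R : List ℕ) : ℚ :=
  (R.map fun r => phi (max y (2 * r - 1))).prod *
    (((mers.filter (fun e => decide (y ≤ e))).map phi).prod * tailG 62)

lemma one_le_phi {e : ℕ} (h : 2 ≤ e) : 1 ≤ phi e := by
  have : (2 : ℚ) ≤ e := by exact_mod_cast h
  unfold phi
  rw [le_div_iff₀ (by linarith)]; linarith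

lemma phi_anti {a b : ℕ} (ha : 2 ≤ a) (h : a ≤ b) : phi b ≤ phi a := by
  have h1 : (2 : ℚ) ≤ a := by exact_mod_cast ha
  have h2 : (a : ℚ) ≤ b := by exact_mod_cast h
  unfold phi
  rw [div_le_div_iff₀ (by linarith) (by linarith)]; nlinarith

lemma phi_ratio {q : ℕ} (h : 2 ≤ q) : ((q : ℚ) + 1) / q * phi (2 * q - 1) = phi q := by
  have h1 : (2 : ℚ) ≤ q := by exact_mod_cast h
  have h2 : ((2 * q - 1 : ℕ) : ℚ) = 2 * q - 1 := by
    rw [Nat.cast_sub (by omega)]; push_cast; ring
  unfold phi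
  rw [h2]
  have : (q : ℚ) - 1 ≠ 0 := by linarith
  have h4 : (q : ℚ) ≠ 0 := by linarith
  rw [show (2 * (q : ℚ) - 1 - 1) = 2 * (q - 1) by ring]
  field_simp
  ring

lemma pow_ge_eight {j : ℕ} (h : 3 ≤ j) : (8 : ℚ) ≤ 2 ^ j := by
  calc (8 : ℚ) = 2 ^ 3 := by norm_num
    _ ≤ 2 ^ j := pow_le_pow_right₀ (by norm_num) h

lemma one_le_tailG {j : ℕ} (h : 3 ≤ j) : 1 ≤ tailG j := by
  have := pow_ge_eight h
  unfold tailG
  rw [le_div_iff₀ (by linarith)]; linarith

lemma tail_step {j : ℕ} (h : 3 ≤ j) : phi (2 ^ j - 1) * tailG (j + 1) ≤ tailG j := by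
  have h8 := pow_ge_eight h
  have h2 : ((2 ^ j - 1 : ℕ) : ℚ) = 2 ^ j - 1 := by
    rw [Nat.cast_sub Nat.one_le_two_pow]; push_cast; ring
  unfold phi tailG
  rw [h2, pow_succ]
  set x : ℚ := 2 ^ j
  rw [div_mul_div_comm, div_le_div_iff₀ (by nlinarith) (by linarith)]
  nlinarith [mul_nonneg (show (0:ℚ) ≤ x by linarith) (show (0:ℚ) ≤ x by linarith)]

lemma tail_prod (N : ℕ) : (∏ j ∈ Ico 62 (62 + N), phi (2 ^ j - 1)) * tailG (62 + N) ≤ tailG 62 := by
  induction N with
  | zero => simp
  | succ N ih =>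
    rw [← add_assoc, Finset.prod_Ico_succ_top (by omega), mul_assoc]
    refine le_trans (mul_le_mul_of_nonneg_left (tail_step (by omega)) ?_) ih
    refine Finset.prod_nonneg fun j hj => le_trans zero_le_one (one_le_phi ?_)
    have : 2 ^ 2 ≤ 2 ^ j := Nat.pow_le_pow_right (by norm_num) (by simp at hj; omega)
    omega

lemma force_eq (x : ℕ) (k : ℕ → Bool) : force x k = k x := by
  cases x <;> rfl

lemma pm_eq (q f e : ℕ) : pm q f e = 3 ^ e % q := by
  induction f generalizing e with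
  | zero => rfl
  | succ f ih =>
    have : pm q (f + 1) e = cond (Nat.ble e 63) (3 ^ e % q)
      (((pm q f (e / 64)) ^ 64 * 3 ^ (e % 64)) % q) := rfl
    rw [this, ih]
    cases Nat.ble e 63
    · simp only [cond_false]
      conv_rhs => rw [← Nat.div_add_mod' e 64, pow_add, pow_mul]
      simp [Nat.mul_mod, Nat.pow_mod]
    · rfl

lemma fermat3 {q : ℕ} (hq : q.Prime) (h3 : q ≠ 3) : 3 ^ (q - 1) % q = 1 := by
  have hc : Nat.Coprime 3 q := (Nat.coprime_primes Nat.prime_three hq).2 (Ne.symm h3)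
  have := Nat.ModEq.pow_totient hc
  rw [Nat.totient_prime hq] at this
  rw [this, Nat.mod_eq_of_lt hq.one_lt]

lemma comp_prime {q : ℕ} (hq : q.Prime) : comp q = false := by
  unfold comp
  by_cases h47 : q ≤ 47
  · rw [show Nat.ble q 47 = true from Nat.ble_eq.mpr h47, cond_true]
    by_cases h3 : q = 3
    · subst h3; rfl
    · have h := fermat3 hq h3
      have e1 : Nat.beq q 3 = false := by
        cases hb : Nat.beq q 3
        · rfl
        · exact absurd (Nat.eq_of_beq_eq_true hb) h3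
      rw [e1, cond_false]
      change (!Nat.beq (3 ^ (q - 1) % q) 1) = false
      rw [h]; rfl
  · have e1 : Nat.ble q 47 = false := by
      cases hb : Nat.ble q 47
      · rfl
      · exact absurd (Nat.le_of_ble_eq_true hb) h47
    rw [e1, cond_false]
    have hg : Nat.gcd q 307444891294245705 = 1 := by
      apply (Nat.Prime.coprime_iff_not_dvd hq).2
      intro hd
      have e : 307444891294245705 = 3*5*7*11*13*17*19*23*29*31*37*41*43*47 := by norm_num
      rw [e] at hd
      simp only [hq.dvd_mul] at hd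
      have key : ∀ m, 0 < m → m ≤ 47 → ¬ q ∣ m := fun m h0 hm hd =>
        h47 (le_trans (Nat.le_of_dvd h0 hd) hm)
      rcases hd with (((((((((((((h | h) | h) | h) | h) | h) | h) | h) | h) | h) | h) | h) | h) | h) <;>
        exact key _ (by norm_num) (by norm_num) h
    rw [hg]
    change (!Nat.beq (pm q 60 (q - 1)) 1) = false
    rw [pm_eq, fermat3 hq (by omega)]; rfl

lemma mers_mem : ∀ j < 62, comp (2 ^ j - 1) = false → 2 ≤ j → 2 ^ j - 1 ∈ mers := by
  decide +kernel

lemma mers_bound (y : ℕ) (hy : 3 ≤ y) (S : Finset ℕ)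
    (hS : ∀ q ∈ S, q.Prime ∧ y ≤ q ∧ ∃ j, q + 1 = 2 ^ j) :
    ∏ q ∈ S, phi q ≤ ((mers.filter (fun e => decide (y ≤ e))).map phi).prod * tailG 62 := by
  rw [← Finset.prod_filter_mul_prod_filter_not S (fun q => q + 1 < 2 ^ 62)]
  have h1 : ∏ q ∈ S.filter (fun q => q + 1 < 2 ^ 62), phi q ≤
      ((mers.filter (fun e => decide (y ≤ e))).map phi).prod := by
    have hnd : (mers.filter (fun e => decide (y ≤ e))).Nodup :=
      List.Nodup.filter _ (by decide)
    rw [← List.prod_toFinset _ hnd]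
    apply Finset.prod_le_prod_of_subset_of_one_le
    · intro q hq
      rw [Finset.mem_filter] at hq
      obtain ⟨hp, hyq, j, hj⟩ := hS q hq.1
      have hj62 : j < 62 := by
        have := hq.2
        rw [hj] at this
        exact (Nat.pow_lt_pow_iff_right (by norm_num)).1 this
      have hj2 : 2 ≤ j := by
        by_contra hc
        have : j = 0 ∨ j = 1 := by omega
        rcases this with rfl | rfl <;> omega
      have e : q = 2 ^ j - 1 := by omega
      simp only [List.mem_toFinset, List.mem_filter, decide_eq_true_eq]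
      exact ⟨e ▸ mers_mem j hj62 (e ▸ comp_prime hp) hj2, hyq⟩
    · intro q hq
      rw [Finset.mem_filter] at hq
      exact le_trans zero_le_one (one_le_phi (hS q hq.1).1.two_le)
    · intro q hq _
      simp only [List.mem_toFinset, List.mem_filter, decide_eq_true_eq] at hq
      exact one_le_phi (by omega)
  have h2 : ∏ q ∈ S.filter (fun q => ¬ q + 1 < 2 ^ 62), phi q ≤ tailG 62 := by
    set N := S.sup id + 1
    have hpos : ∀ j ∈ Ico 62 (62 + N), 1 ≤ phi (2 ^ j - 1) := by
      intro j hj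
      apply one_le_phi
      have : 2 ^ 2 ≤ 2 ^ j := Nat.pow_le_pow_right (by norm_num) (by simp at hj; omega)
      omega
    calc _ ≤ ∏ q ∈ (Ico 62 (62 + N)).image (fun j => 2 ^ j - 1), phi q := by
          apply Finset.prod_le_prod_of_subset_of_one_le
          · intro q hq
            rw [Finset.mem_filter] at hq
            obtain ⟨hp, hyq, j, hj⟩ := hS q hq.1
            rw [Finset.mem_image]
            refine ⟨j, ?_, by omega⟩
            have hle : q ≤ S.sup id := Finset.le_sup (f := id) hq.1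
            have h62 : 2 ^ 62 ≤ 2 ^ j := by have := hq.2; omega
            have := (Nat.pow_le_pow_iff_right (by norm_num)).1 h62
            have hlt : j < 2 ^ j := Nat.lt_two_pow_self
            rw [Finset.mem_Ico]; omega
          · intro q hq
            rw [Finset.mem_filter] at hq
            exact le_trans zero_le_one (one_le_phi (hS q hq.1).1.two_le)
          · intro q hq _
            rw [Finset.mem_image] at hq
            obtain ⟨j, hj, rfl⟩ := hq
            exact hpos j hj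
      _ = ∏ j ∈ Ico 62 (62 + N), phi (2 ^ j - 1) := by
          apply Finset.prod_image
          intro a _ b _ hab
          have h1 : 1 ≤ 2 ^ a := Nat.one_le_two_pow
          have h2 : 1 ≤ 2 ^ b := Nat.one_le_two_pow
          have : 2 ^ a = 2 ^ b := by simp only at hab; omega
          exact Nat.pow_right_injective (le_refl 2) this
      _ ≤ (∏ j ∈ Ico 62 (62 + N), phi (2 ^ j - 1)) * tailG (62 + N) :=
          le_mul_of_one_le_right (le_trans zero_le_one (Finset.one_le_prod hpos))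
            (one_le_tailG (by omega))
      _ ≤ tailG 62 := tail_prod N
  apply mul_le_mul h1 h2
  · exact Finset.prod_nonneg fun q hq =>
      le_trans zero_le_one (one_le_phi (hS q (Finset.mem_filter.1 hq).1).1.two_le)
  · refine le_trans (Finset.prod_nonneg fun q hq => ?_) h1
    exact le_trans zero_le_one (one_le_phi (hS q (Finset.mem_filter.1 hq).1).1.two_le)

structure Good (Q : Finset ℕ) : Prop where
  prime : ∀ q ∈ Q, q.Prime
  odd : ∀ q ∈ Q, q ≠ 2
  mem : ∀ q ∈ Q, ∀ r, r.Prime → r ≠ 2 → r ∣ q + 1 → r ∈ Q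
  sq : ∀ q ∈ Q, ∀ r, r.Prime → r ≠ 2 → ¬ r * r ∣ q + 1
  uniq : ∀ q ∈ Q, ∀ q' ∈ Q, ∀ r, r.Prime → r ≠ 2 → r ∣ q + 1 → r ∣ q' + 1 → q = q'

structure Inv (Q : Finset ℕ) (y : ℕ) (R : List ℕ) : Prop where
  nodup : R.Nodup
  sub : ∀ r ∈ R, r ∈ Q ∧ r < y
  all : ∀ r ∈ Q, r < y → ∀ q ∈ Q, y ≤ q → r ∣ q + 1 → r ∈ R

lemma Good.three {Q : Finset ℕ} (hQ : Good Q) {q : ℕ} (hq : q ∈ Q) : 3 ≤ q := by
  have := (hQ.prime q hq).two_le
  have := hQ.odd q hq
  omega

lemma Good.two_mul_dvd {Q : Finset ℕ} (hQ : Good Q) {q r : ℕ} (hq : q ∈ Q) (hr : r.Prime)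
    (hr2 : r ≠ 2) (hd : r ∣ q + 1) : 2 * r ∣ q + 1 := by
  apply Nat.Coprime.mul_dvd_of_dvd_of_dvd ((Nat.coprime_primes Nat.prime_two hr).2 (Ne.symm hr2))
    _ hd
  have := (hQ.prime q hq).eq_two_or_odd.resolve_left (hQ.odd q hq)
  omega

lemma pow_two_or (v : ℕ) (hv : v ≠ 0) : (∃ j, v = 2 ^ j) ∨ ∃ r, r.Prime ∧ r ≠ 2 ∧ r ∣ v := by
  by_cases h : ∃ r, r.Prime ∧ r ≠ 2 ∧ r ∣ v
  · exact Or.inr h
  · left
    refine ⟨_, Nat.eq_prime_pow_of_unique_prime_dvd hv ?_⟩
    intro d hd hdv
    by_contra hc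
    exact h ⟨d, hd, hc, hdv⟩

theorem bound {Q : Finset ℕ} (hQ : Good Q) {y : ℕ} (hy : 3 ≤ y) {R : List ℕ} (hI : Inv Q y R) :
    ∏ q ∈ Q.filter (fun q => y ≤ q), (((q : ℚ) + 1) / q) ≤ W y R := by
  classical
  set S := Q.filter (fun q => y ≤ q) with hSdef
  have hSQ : ∀ q ∈ S, q ∈ Q ∧ y ≤ q := fun q hq => Finset.mem_filter.1 hq
  let M := S.filter (fun q => ∃ j, q + 1 = 2 ^ j)
  let N := S.filter (fun q => ¬ ∃ j, q + 1 = 2 ^ j)
  have hN : ∀ q ∈ N, ∃ r, r.Prime ∧ r ≠ 2 ∧ r ∣ q + 1 := fun q hq =>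
    (pow_two_or (q + 1) (by omega)).resolve_left (Finset.mem_filter.1 hq).2
  choose! π hπ using hN
  let f : ℕ → ℚ := fun r => phi (max y (2 * r - 1))
  have hf : ∀ r, 1 ≤ f r := fun r => one_le_phi (by omega)
  have hM := mers_bound y hy M (fun q hq => by
    have h := Finset.mem_filter.1 hq
    exact ⟨hQ.prime q (hSQ q h.1).1, (hSQ q h.1).2, h.2⟩)
  have hNb : ∏ q ∈ N, phi q ≤ (R.map f).prod * ∏ q ∈ S, phi (2 * q - 1) := by
    calc ∏ q ∈ N, phi q ≤ ∏ q ∈ N, f (π q) := by
          apply Finset.prod_le_prod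
          · intro q hq
            exact le_trans zero_le_one
              (one_le_phi (hQ.prime q (hSQ q (Finset.mem_filter.1 hq).1).1).two_le)
          · intro q hq
            have h := hSQ q (Finset.mem_filter.1 hq).1
            obtain ⟨h1, h2, h3⟩ := hπ q hq
            have := Nat.le_of_dvd (by omega) (hQ.two_mul_dvd h.1 h1 h2 h3)
            exact phi_anti (by omega) (by omega)
      _ = ∏ r ∈ N.image π, f r := by
          symm
          apply Finset.prod_image
          intro a ha b hb hab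
          obtain ⟨h1, h2, h3⟩ := hπ a ha
          obtain ⟨_, _, h4⟩ := hπ b hb
          exact hQ.uniq a (hSQ a (Finset.mem_filter.1 ha).1).1 b
            (hSQ b (Finset.mem_filter.1 hb).1).1 _ h1 h2 h3 (hab ▸ h4)
      _ ≤ ∏ r ∈ R.toFinset ∪ S, f r := by
          apply Finset.prod_le_prod_of_subset_of_one_le
          · intro r hr
            obtain ⟨q, hq, rfl⟩ := Finset.mem_image.1 hr
            have h := hSQ q (Finset.mem_filter.1 hq).1
            obtain ⟨h1, h2, h3⟩ := hπ q hq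
            have hm := hQ.mem q h.1 _ h1 h2 h3
            rw [Finset.mem_union]
            by_cases hlt : π q < y
            · left; exact List.mem_toFinset.2 (hI.all _ hm hlt q h.1 h.2 h3)
            · right; exact Finset.mem_filter.2 ⟨hm, by omega⟩
          · intro r _; exact le_trans zero_le_one (hf r)
          · intro r _ _; exact hf r
      _ = (R.map f).prod * ∏ q ∈ S, phi (2 * q - 1) := by
          rw [Finset.prod_union, List.prod_toFinset _ hI.nodup]
          · congr 1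
            apply Finset.prod_congr rfl
            intro q hq
            have := (hSQ q hq).2
            simp only [f]
            rw [max_eq_right (by omega)]
          · rw [Finset.disjoint_left]
            intro r hr hrS
            have := (hI.sub r (List.mem_toFinset.1 hr)).2
            have := (hSQ r hrS).2
            omega
  have hpos : 0 < ∏ q ∈ S, phi (2 * q - 1) := by
    refine Finset.prod_pos fun q hq => lt_of_lt_of_le zero_lt_one (one_le_phi ?_)
    have := (hSQ q hq).2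
    omega
  have heq : (∏ q ∈ S, (((q : ℚ) + 1) / q)) * ∏ q ∈ S, phi (2 * q - 1) = ∏ q ∈ S, phi q := by
    rw [← Finset.prod_mul_distrib]
    exact Finset.prod_congr rfl fun q hq => phi_ratio (by have := (hSQ q hq).2; omega)
  refine le_of_mul_le_mul_right ?_ hpos
  rw [heq, ← Finset.prod_filter_mul_prod_filter_not S (fun q => ∃ j, q + 1 = 2 ^ j)]
  have hMn : 0 ≤ ∏ q ∈ M, phi q := Finset.prod_nonneg fun q hq =>
    le_trans zero_le_one (one_le_phi (hQ.prime q (hSQ q (Finset.mem_filter.1 hq).1).1).two_le)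
  have hNn : 0 ≤ ∏ q ∈ N, phi q := Finset.prod_nonneg fun q hq =>
    le_trans zero_le_one (one_le_phi (hQ.prime q (hSQ q (Finset.mem_filter.1 hq).1).1).two_le)
  calc (∏ q ∈ M, phi q) * ∏ q ∈ N, phi q ≤ _ := mul_le_mul hM hNb hNn (le_trans hMn hM)
    _ = _ := by unfold W; ring

end Pool.Agent.P.MP_61a291_nt
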