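import Mathlib

namespace Pool.Agent.P.MP_61a291_nt

noncomputable section

def force (x : ℕ) (k : ℕ → Bool) : Bool := Nat.casesOn x (k 0) (fun n => k n.succ)

def mers : List ℕ := [3, 7, 31, 127, 8191, 131071, 524287, 2147483647, 2305843009213693951]

def remM (y : ℕ) (L : List ℕ) : ℕ → ℕ → Bool :=
  List.rec (motive := fun _ => ℕ → ℕ → Bool)
    (fun A B => Nat.blt (Nat.mul A 4611686018427387904) (Nat.mul B 4611686018427387900))
    (fun e _ ih A B => cond (Nat.ble y e) (ih (Nat.mul A (Nat.succ e)) (Nat.mul B (Nat.pred e)))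
      (ih A B)) L

def remL (y : ℕ) (R : List ℕ) : ℕ → ℕ → Bool :=
  List.rec (motive := fun _ => ℕ → ℕ → Bool)
    (remM y mers)
    (fun r _ ih A B =>
      force (cond (Nat.ble y (Nat.pred (Nat.mul 2 r))) (Nat.pred (Nat.mul 2 r)) y) fun m =>
        ih (Nat.mul A (Nat.succ m)) (Nat.mul B (Nat.pred m))) R

def pm (q : ℕ) (f : ℕ) : ℕ → ℕ :=
  Nat.rec (motive := fun _ => ℕ → ℕ) (fun e => 3 ^ e % q)
    (fun _ ih e => cond (Nat.ble e 63) (Nat.mod (Nat.pow 3 e) q)
      (Nat.mod (Nat.mul (Nat.pow (ih (Nat.div e 64)) 64) (Nat.pow 3 (Nat.mod e 64))) q)) f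

def comp (q : ℕ) : Bool :=
  cond (Nat.ble q 47)
    (cond (Nat.beq q 3) false (not (Nat.beq (Nat.mod (Nat.pow 3 (Nat.pred q)) q) 1)))
    (cond (Nat.beq (Nat.gcd q 307444891294245705) 1)
      (not (Nat.beq (pm q 60 (Nat.pred q)) 1)) true)

def pows (y h : ℕ) (c : ℕ → Bool) (f : ℕ) : ℕ → Bool :=
  Nat.rec (motive := fun _ => ℕ → Bool) (fun _ => false)
    (fun _ ih v => cond (Nat.blt h v) true
      (cond (cond (Nat.ble v y) true (c v)) (force (Nat.mul 2 v) ih) false)) f

def subs (h : ℕ) (k : ℕ → List ℕ → Bool) (R : List ℕ) : ℕ → List ℕ → Bool :=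
  List.rec (motive := fun _ => ℕ → List ℕ → Bool) k
    (fun x _ ih p rest => cond (ih p (x :: rest))
      (force (Nat.mul p x) fun p' => cond (Nat.blt h p') true (ih p' rest)) false) R

def findH (t k : ℕ → Bool) (f : ℕ) : ℕ → Bool :=
  Nat.rec (motive := fun _ => ℕ → Bool) (fun _ => false)
    (fun _ ih h => cond (t h) (k h) (force (Nat.mul 2 h) ih)) f

def cand (k : ℕ → List ℕ → ℕ → ℕ → Bool) (R : List ℕ) (pn pd A B : ℕ) (rest : List ℕ)
    (v : ℕ) : Bool :=
  force (Nat.pred v) fun q =>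
    cond (comp q) true (cond (remL q R A B) true
      (force (Nat.mul pn v) fun pn' => force (Nat.mul pd q) fun pd' =>
        k v (q :: rest) pn' pd'))

def step (ln ld hn hd good : ℕ) (k : ℕ → List ℕ → ℕ → ℕ → Bool) (y : ℕ) (R : List ℕ)
    (pn pd : ℕ) : Bool :=
  cond (Nat.ble (Nat.mul hn pd) (Nat.mul pn hd))
    (cond (Nat.blt (Nat.mul hn pd) (Nat.mul pn hd)) true (Nat.beq pd good))
    (force (Nat.mul pn ld) fun A => force (Nat.mul pd ln) fun B =>
      cond (remL y R A B) true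
        (force (Nat.mul 2 y) (findH (fun h => remL h R A B)
          (fun h => subs h (fun p rest => pows y h (cand k R pn pd A B rest) 300 p) R 2 []) 300)))

def chk (ln ld hn hd good : ℕ) (f : ℕ) : ℕ → List ℕ → ℕ → ℕ → Bool :=
  Nat.rec (motive := fun _ => ℕ → List ℕ → ℕ → ℕ → Bool) (fun _ _ _ _ => false)
    (fun _ ih => step ln ld hn hd good ih) f

/-- `sA a = ∑_{b ∣ a} 2^(b-1)` in list form. -/
def sA (a : ℕ) : ℕ := (((List.range' 1 a).filter (fun b => a % b == 0)).map (fun b => 2 ^ (b - 1))).sum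

def goodOf (a : ℕ) : ℕ :=
  if a = 2 then 3 else if a = 3 then 15 else if a = 4 then 33 else if a = 6 then 273
  else if a = 7 then 1365 else if a = 8 then 14595 else 0

def runA (a : ℕ) : Bool :=
  force (2 ^ a) fun n => force (sA a) fun d => force (goodOf a) fun g =>
    cond (Nat.ble (Nat.mul 137438953472 d) (Nat.mul n 68719476737)) (Nat.beq g 0)
      (chk n d n d g 100 3 [] 1 1)

end

end Pool.Agent.P.MP_61a291_nt
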