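import Pool.Agent.P.MP_61a291_nt.Chk

namespace Pool.Agent.P.MP_61a291_nt

theorem run2 : runA 2 = true := by decide +kernel
theorem run3 : runA 3 = true := by decide +kernel
theorem run4 : runA 4 = true := by decide +kernel
theorem run5 : runA 5 = true := by decide +kernel
theorem run6 : runA 6 = true := by decide +kernel
theorem run7 : runA 7 = true := by decide +kernel
theorem run8 : runA 8 = true := by decide +kernel
theorem run9 : runA 9 = true := by decide +kernel
theorem run10 : runA 10 = true := by decide +kernel
theorem run11 : runA 11 = true := by decide +kernel
theorem run12 : runA 12 = true := by decide +kernel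
theorem run13 : runA 13 = true := by decide +kernel

theorem runs0 (a : ℕ) (h1 : 2 ≤ a) (h2 : a < 14) : runA a = true := by
  interval_cases a
  · exact run2
  · exact run3
  · exact run4
  · exact run5
  · exact run6
  · exact run7
  · exact run8
  · exact run9
  · exact run10
  · exact run11
  · exact run12
  · exact run13

end Pool.Agent.P.MP_61a291_nt
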