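import Pool.Agent.P.MP_61a291_nt.Chk

namespace Pool.Agent.P.MP_61a291_nt

theorem run14 : runA 14 = true := by decide +kernel
theorem run15 : runA 15 = true := by decide +kernel
theorem run16 : runA 16 = true := by decide +kernel
theorem run17 : runA 17 = true := by decide +kernel
theorem run18 : runA 18 = true := by decide +kernel
theorem run19 : runA 19 = true := by decide +kernel
theorem run20 : runA 20 = true := by decide +kernel
theorem run21 : runA 21 = true := by decide +kernel
theorem run22 : runA 22 = true := by decide +kernel
theorem run23 : runA 23 = true := by decide +kernel
theorem run24 : runA 24 = true := by decide +kernel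
theorem run25 : runA 25 = true := by decide +kernel
theorem run26 : runA 26 = true := by decide +kernel
theorem run27 : runA 27 = true := by decide +kernel

theorem runs1 (a : ℕ) (h1 : 14 ≤ a) (h2 : a < 28) : runA a = true := by
  interval_cases a
  · exact run14
  · exact run15
  · exact run16
  · exact run17
  · exact run18
  · exact run19
  · exact run20
  · exact run21
  · exact run22
  · exact run23
  · exact run24
  · exact run25
  · exact run26
  · exact run27

end Pool.Agent.P.MP_61a291_nt
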