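import Pool.Agent.P.MP_61a291_nt.Chk

namespace Pool.Agent.P.MP_61a291_nt

theorem run28 : runA 28 = true := by decide +kernel
theorem run29 : runA 29 = true := by decide +kernel
theorem run30 : runA 30 = true := by decide +kernel
theorem run31 : runA 31 = true := by decide +kernel
theorem run32 : runA 32 = true := by decide +kernel
theorem run33 : runA 33 = true := by decide +kernel
theorem run34 : runA 34 = true := by decide +kernel
theorem run35 : runA 35 = true := by decide +kernel
theorem run36 : runA 36 = true := by decide +kernel
theorem run37 : runA 37 = true := by decide +kernel
theorem run38 : runA 38 = true := by decide +kernel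
theorem run39 : runA 39 = true := by decide +kernel
theorem run40 : runA 40 = true := by decide +kernel
theorem run41 : runA 41 = true := by decide +kernel
theorem run42 : runA 42 = true := by decide +kernel
theorem run43 : runA 43 = true := by decide +kernel
theorem run44 : runA 44 = true := by decide +kernel
theorem run45 : runA 45 = true := by decide +kernel
theorem run46 : runA 46 = true := by decide +kernel
theorem run47 : runA 47 = true := by decide +kernel

theorem runs2 (a : ℕ) (h1 : 28 ≤ a) (h2 : a < 48) : runA a = true := by
  interval_cases a
  · exact run28
  · exact run29
  · exact run30
  · exact run31
  · exact run32
  · exact run33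
  · exact run34
  · exact run35
  · exact run36
  · exact run37
  · exact run38
  · exact run39
  · exact run40
  · exact run41
  · exact run42
  · exact run43
  · exact run44
  · exact run45
  · exact run46
  · exact run47

end Pool.Agent.P.MP_61a291_nt
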