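import Pool.Agent.P.MP_61a291_nt.Chk

namespace Pool.Agent.P.MP_61a291_nt

theorem run_tail : chk 137438953472 68719476737 2 1 0 100 3 [] 1 1 = true := by decide +kernel

theorem run48 : runA 48 = true := by decide +kernel
theorem run49 : runA 49 = true := by decide +kernel
theorem run50 : runA 50 = true := by decide +kernel
theorem run51 : runA 51 = true := by decide +kernel
theorem run52 : runA 52 = true := by decide +kernel
theorem run53 : runA 53 = true := by decide +kernel
theorem run54 : runA 54 = true := by decide +kernel
theorem run55 : runA 55 = true := by decide +kernel
theorem run56 : runA 56 = true := by decide +kernel
theorem run57 : runA 57 = true := by decide +kernel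
theorem run58 : runA 58 = true := by decide +kernel
theorem run59 : runA 59 = true := by decide +kernel
theorem run60 : runA 60 = true := by decide +kernel
theorem run61 : runA 61 = true := by decide +kernel
theorem run62 : runA 62 = true := by decide +kernel
theorem run63 : runA 63 = true := by decide +kernel
theorem run64 : runA 64 = true := by decide +kernel
theorem run65 : runA 65 = true := by decide +kernel
theorem run66 : runA 66 = true := by decide +kernel
theorem run67 : runA 67 = true := by decide +kernel
theorem run68 : runA 68 = true := by decide +kernel
theorem run69 : runA 69 = true := by decide +kernel
theorem run70 : runA 70 = true := by decide +kernel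
theorem run71 : runA 71 = true := by decide +kernel
theorem run72 : runA 72 = true := by decide +kernel
theorem run73 : runA 73 = true := by decide +kernel

theorem runs3 (a : ℕ) (h1 : 48 ≤ a) (h2 : a < 74) : runA a = true := by
  interval_cases a
  · exact run48
  · exact run49
  · exact run50
  · exact run51
  · exact run52
  · exact run53
  · exact run54
  · exact run55
  · exact run56
  · exact run57
  · exact run58
  · exact run59
  · exact run60
  · exact run61
  · exact run62
  · exact run63
  · exact run64
  · exact run65
  · exact run66
  · exact run67
  · exact run68
  · exact run69
  · exact run70
  · exact run71
  · exact run72
  · exact run73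

end Pool.Agent.P.MP_61a291_nt
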