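import Pool.Agent.P.MP_61a291_nt.Sound
import Pool.Agent.P.MP_61a291_nt.Run0
import Pool.Agent.P.MP_61a291_nt.Run1
import Pool.Agent.P.MP_61a291_nt.Run2
import Pool.Agent.P.MP_61a291_nt.Run3

namespace Pool.Agent.P.MP_61a291_nt

open Finset

lemma good_of_dvd {Q : Finset ℕ} (hp : ∀ q ∈ Q, q.Prime) (ho : ∀ q ∈ Q, q ≠ 2) {a : ℕ}
    (hd : ∏ q ∈ Q, (q + 1) ∣ 2 ^ a * ∏ q ∈ Q, q) : Good Q := by
  have hsq : Squarefree (∏ q ∈ Q, q) := by
    apply Finset.squarefree_prod_of_pairwise_isCoprime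
    · intro x hx y hy hxy
      exact Nat.coprime_iff_isRelPrime.1 ((Nat.coprime_primes (hp x hx) (hp y hy)).2 hxy)
    · intro x hx; exact (hp x hx).prime.squarefree
  have hcop : ∀ r, r.Prime → r ≠ 2 → Nat.Coprime r (2 ^ a) := fun r hr h2 =>
    Nat.Coprime.pow_right _ ((Nat.coprime_primes hr Nat.prime_two).2 h2)
  have key : ∀ r, r.Prime → r ≠ 2 → ¬ r * r ∣ ∏ q ∈ Q, (q + 1) := by
    intro r hr h2 h
    have h3 : r * r ∣ ∏ q ∈ Q, q :=
      Nat.Coprime.dvd_of_dvd_mul_left (Nat.Coprime.mul_left (hcop r hr h2) (hcop r hr h2))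
        (dvd_trans h hd)
    exact (Nat.squarefree_iff_prime_squarefree.1 hsq) r hr h3
  refine ⟨hp, ho, ?_, ?_, ?_⟩
  · intro q hq r hr h2 h
    have h3 : r ∣ ∏ q ∈ Q, q :=
      Nat.Coprime.dvd_of_dvd_mul_left (hcop r hr h2)
        (dvd_trans (dvd_trans h (Finset.dvd_prod_of_mem (fun q => q + 1) hq)) hd)
    obtain ⟨x, hx, hrx⟩ := (Prime.dvd_finsetProd_iff hr.prime _).1 h3
    rwa [(Nat.prime_dvd_prime_iff_eq hr (hp x hx)).1 hrx]
  · intro q hq r hr h2 h
    exact key r hr h2 (dvd_trans h (Finset.dvd_prod_of_mem (fun q => q + 1) hq))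
  · intro q hq q' hq' r hr h2 h h'
    by_contra hne
    apply key r hr h2
    refine dvd_trans (mul_dvd_mul h h') ?_
    rw [← Finset.prod_pair (f := fun q => q + 1) hne]
    apply Finset.prod_dvd_prod_of_subset
    intro x hx
    rcases Finset.mem_insert.1 hx with rfl | hx
    · exact hq
    · rwa [Finset.mem_singleton.1 hx]

lemma sA_eq (a : ℕ) : sA a = ∑ b ∈ a.divisors, 2 ^ (b - 1) := by
  unfold sA
  rw [← List.sum_toFinset _ (List.Nodup.filter _ (List.nodup_range' 1))]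
  apply Finset.sum_congr _ fun _ _ => rfl
  ext b
  simp only [List.mem_toFinset, List.mem_filter, List.mem_range'_1, beq_iff_eq, Nat.mem_divisors]
  constructor
  · rintro ⟨h1, h2⟩
    exact ⟨Nat.dvd_of_mod_eq_zero h2, by omega⟩
  · rintro ⟨h1, h2⟩
    have := Nat.le_of_dvd (by omega) h1
    have := Nat.pos_of_dvd_of_pos h1 (by omega)
    exact ⟨by omega, Nat.mod_eq_zero_of_dvd h1⟩

lemma sA_ge {a : ℕ} (ha : 1 ≤ a) : 2 ^ (a - 1) ≤ sA a := by
  rw [sA_eq]
  exact Finset.single_le_sum (f := fun b => 2 ^ (b - 1)) (fun _ _ => Nat.zero_le _)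
    (Nat.mem_divisors_self a (by omega))

lemma geom_le (m : ℕ) : ∑ b ∈ Ico 1 (m + 1), 2 ^ (b - 1) ≤ 2 ^ m := by
  have : ∑ b ∈ Ico 1 (m + 1), 2 ^ (b - 1) + 1 = 2 ^ m := by
    induction m with
    | zero => simp
    | succ m ih =>
      rw [Finset.sum_Ico_succ_top (by omega), pow_succ, Nat.add_sub_cancel]
      omega
  omega

lemma sA_le {a : ℕ} (ha : 1 ≤ a) : sA a ≤ 2 ^ (a / 2) + 2 ^ (a - 1) := by
  rw [sA_eq, ← Nat.insert_self_properDivisors (by omega),
    Finset.sum_insert Nat.self_notMem_properDivisors, add_comm]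
  refine Nat.add_le_add_right (le_trans (Finset.sum_le_sum_of_subset ?_) (geom_le _)) _
  intro b hb
  rw [Nat.mem_properDivisors] at hb
  obtain ⟨⟨c, hc⟩, h2⟩ := hb
  have hb0 : b ≠ 0 := by rintro rfl; omega
  have hc2 : 2 ≤ c := by
    by_contra h
    have : c = 0 ∨ c = 1 := by omega
    rcases this with rfl | rfl <;> omega
  have : b * 2 ≤ a := by rw [hc]; exact Nat.mul_le_mul_left _ hc2
  rw [Finset.mem_Ico]; omega

lemma TT_eq {Q : Finset ℕ} (hQ : Good Q) {d n : ℕ} (hd : 0 < d)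
    (h : d * ∏ q ∈ Q, (q + 1) = n * ∏ q ∈ Q, q) : TT Q = (n : ℚ) / d := by
  have hpos : (0 : ℚ) < ((∏ q ∈ Q, q : ℕ) : ℚ) := by
    exact_mod_cast Finset.prod_pos fun q hq => (hQ.prime q hq).pos
  have hd' : (0 : ℚ) < d := by exact_mod_cast hd
  have : TT Q = ((∏ q ∈ Q, (q + 1) : ℕ) : ℚ) / ((∏ q ∈ Q, q : ℕ) : ℚ) := by
    unfold TT; push_cast; rw [Finset.prod_div_distrib]
  rw [this, div_eq_div_iff hpos.ne' hd'.ne', mul_comm]
  exact_mod_cast h

lemma near_two {Q : Finset ℕ} (hQ : Good Q) {d n : ℕ} (hd : 0 < d)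
    (h : d * ∏ q ∈ Q, (q + 1) = n * ∏ q ∈ Q, q) (h1 : 137438953472 * d ≤ n * 68719476737)
    (h2 : n ≤ 2 * d) : False := by
  have hd' : (0 : ℚ) < d := by exact_mod_cast hd
  have := chk_sound hQ (ln := 137438953472) (ld := 68719476737) (hn := 2) (hd := 1) (good := 0)
    (by norm_num) (by norm_num) (by
      rw [TT_eq hQ hd h, div_le_div_iff₀ (by norm_num) hd']; exact_mod_cast h1) (by
      rw [TT_eq hQ hd h, div_le_div_iff₀ hd' (by norm_num)]
      have : (n : ℚ) ≤ 2 * d := by exact_mod_cast h2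
      push_cast; linarith) 100 run_tail
  exact absurd this (Finset.prod_pos fun q hq => (hQ.prime q hq).pos).ne'

theorem core {Q : Finset ℕ} (hp : ∀ q ∈ Q, q.Prime) (ho : ∀ q ∈ Q, q ≠ 2) {a : ℕ} (ha : 2 ≤ a)
    (h : sA a * ∏ q ∈ Q, (q + 1) = 2 ^ a * ∏ q ∈ Q, q) : ∏ q ∈ Q, q = goodOf a := by
  have hQ : Good Q := good_of_dvd hp ho (Dvd.intro_left _ h)
  have hge := sA_ge (show 1 ≤ a by omega)
  have hpos : 0 < sA a := lt_of_lt_of_le (by positivity) hge
  have e : 2 ^ a = 2 * 2 ^ (a - 1) := by rw [← pow_succ']; congr 1; omega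
  by_cases hnear : 137438953472 * sA a ≤ 2 ^ a * 68719476737
  · exact (near_two hQ hpos h hnear (by omega)).elim
  have h74 : a < 74 := by
    by_contra hc
    apply hnear
    have h1 := sA_le (show 1 ≤ a by omega)
    have h2 : 2 ^ 37 * 2 ^ (a / 2) ≤ 2 ^ a := by
      rw [← pow_add]; exact Nat.pow_le_pow_right (by norm_num) (by omega)
    omega
  have hrun : runA a = true := by
    by_cases h1 : a < 14
    · exact runs0 a ha h1
    by_cases h2 : a < 28
    · exact runs1 a (by omega) h2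
    by_cases h3 : a < 48
    · exact runs2 a (by omega) h3
    · exact runs3 a (by omega) h74
  unfold runA at hrun
  rw [force_eq, force_eq, force_eq] at hrun
  cases hb : Nat.ble (Nat.mul 137438953472 (sA a)) (Nat.mul (2 ^ a) 68719476737)
  · rw [hb, cond_false] at hrun
    have hT := TT_eq hQ hpos h
    exact chk_sound hQ hpos hpos hT.ge hT.le 100 hrun
  · exact absurd (Nat.le_of_ble_eq_true hb) hnear

theorem core_odd {Q : Finset ℕ} (hp : ∀ q ∈ Q, q.Prime) (ho : ∀ q ∈ Q, q ≠ 2)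
    (h : ∏ q ∈ Q, (q + 1) = 2 * ∏ q ∈ Q, q) : False := by
  have hQ : Good Q := good_of_dvd hp ho (a := 1) (by rw [h, pow_one])
  exact near_two hQ (d := 1) (n := 2) one_pos (by rw [one_mul, h]) (by norm_num) (by norm_num)

theorem classify (n : ℕ) (hn : 0 < n) (hpow : ∀ p, p.Prime → p ∣ n → p ^ 2 ∣ n)
    (hcube : ∀ p, p.Prime → p ≠ 2 → ¬ p ^ 3 ∣ n)
    (h : ∏ p ∈ n.primeFactors, ∑ b ∈ (n.factorization p).divisors, p ^ b = 2 * n) :
    n = 36 ∨ n = 1800 ∨ n = 17424 ∨ n = 4769856 ∨ n = 238492800 ∨ n = 54531590400 := by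
  set Q := n.primeFactors.erase 2 with hQdef
  have hp : ∀ q ∈ Q, q.Prime := fun q hq =>
    Nat.prime_of_mem_primeFactors (Finset.mem_of_mem_erase hq)
  have ho : ∀ q ∈ Q, q ≠ 2 := fun q hq => Finset.ne_of_mem_erase hq
  have hge : ∀ q ∈ n.primeFactors, 2 ≤ n.factorization q := fun q hq =>
    ((Nat.prime_of_mem_primeFactors hq).pow_dvd_iff_le_factorization hn.ne').1
      (hpow q (Nat.prime_of_mem_primeFactors hq) (Nat.dvd_of_mem_primeFactors hq))
  have hf : ∀ q ∈ Q, n.factorization q = 2 := by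
    intro q hq
    have h1 := hge q (Finset.mem_of_mem_erase hq)
    have h2 := hcube q (hp q hq) (ho q hq)
    rw [(hp q hq).pow_dvd_iff_le_factorization hn.ne'] at h2
    omega
  have hsig : ∏ p ∈ Q, ∑ b ∈ (n.factorization p).divisors, p ^ b =
      (∏ q ∈ Q, q) * ∏ q ∈ Q, (q + 1) := by
    rw [← Finset.prod_mul_distrib]
    apply Finset.prod_congr rfl
    intro q hq
    rw [hf q hq, Nat.prime_two.sum_divisors]
    ring
  have hprod : ∏ p ∈ Q, p ^ n.factorization p = (∏ q ∈ Q, q) * ∏ q ∈ Q, q := by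
    rw [← Finset.prod_mul_distrib]
    apply Finset.prod_congr rfl
    intro q hq
    rw [hf q hq]; ring
  have hnn : n = ∏ p ∈ n.primeFactors, p ^ n.factorization p := by
    conv_lhs => rw [← Nat.prod_factorization_pow_eq_self hn.ne']
    rfl
  have hm : 0 < ∏ q ∈ Q, q := Finset.prod_pos fun q hq => (hp q hq).pos
  by_cases h2 : 2 ∈ n.primeFactors
  · have ha := hge 2 h2
    set a := n.factorization 2
    rw [← Finset.mul_prod_erase _ _ h2, hprod] at hnn
    rw [← Finset.mul_prod_erase _ _ h2, hsig] at h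
    have hs : ∑ b ∈ a.divisors, 2 ^ b = 2 * sA a := by
      rw [sA_eq, Finset.mul_sum]
      apply Finset.sum_congr rfl
      intro b hb
      have := Nat.pos_of_mem_divisors hb
      rw [← pow_succ']; congr 1; omega
    change (∑ b ∈ a.divisors, 2 ^ b) * _ = _ at h
    change n = 2 ^ a * _ at hnn
    rw [hs] at h
    have hc := core hp ho ha (by
      apply Nat.eq_of_mul_eq_mul_left (show 0 < 2 * ∏ q ∈ Q, q by omega)
      rw [hnn] at h
      linarith)
    rw [hc] at hnn hm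
    clear_value a
    unfold goodOf at hnn hm
    split_ifs at hnn hm with h1 h2 h3 h4 h5 h6
    · subst h1; norm_num at hnn; simp [hnn]
    · subst h2; norm_num at hnn; simp [hnn]
    · subst h3; norm_num at hnn; simp [hnn]
    · subst h4; norm_num at hnn; simp [hnn]
    · subst h5; norm_num at hnn; simp [hnn]
    · subst h6; norm_num at hnn; simp [hnn]
    · omega
  · exfalso
    have e : Q = n.primeFactors := Finset.erase_eq_of_notMem h2
    rw [← e, hprod] at hnn
    rw [← e, hsig] at h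
    apply core_odd hp ho
    apply Nat.eq_of_mul_eq_mul_left hm
    rw [h]
    conv_lhs => rw [hnn]
    ring

end Pool.Agent.P.MP_61a291_nt
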