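import Pool.Agent.P.MP_61a291_nt.Bound

namespace Pool.Agent.P.MP_61a291_nt

open Finset

lemma blt_iff (a b : ℕ) : Nat.blt a b = true ↔ a < b := by rw [Nat.blt_eq]

lemma ble_false {a b : ℕ} (h : Nat.ble a b = false) : b < a := by
  by_contra hc
  have : Nat.ble a b = true := Nat.ble_eq.mpr (by omega)
  rw [this] at h; cases h

lemma blt_false {a b : ℕ} (h : Nat.blt a b = false) : b ≤ a := by
  by_contra hc
  have : Nat.blt a b = true := (blt_iff a b).mpr (by omega)
  rw [this] at h; cases h

lemma mul_phi {A B e : ℕ} {X : ℚ} (he : 2 ≤ e)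
    (h : ((A * (e + 1) : ℕ) : ℚ) * X < ((B * (e - 1) : ℕ) : ℚ)) : (A : ℚ) * (phi e * X) < B := by
  have h1 : (2 : ℚ) ≤ e := by exact_mod_cast he
  rw [Nat.cast_mul, Nat.cast_mul, Nat.cast_sub (by omega)] at h
  push_cast at h
  unfold phi
  rw [div_mul_eq_mul_div, ← mul_div_assoc, div_lt_iff₀ (by linarith)]
  linarith

lemma remM_spec (y : ℕ) (L : List ℕ) (hL : ∀ e ∈ L, 2 ≤ e) (A B : ℕ) (h : remM y L A B = true) :
    (A : ℚ) * (((L.filter (fun e => decide (y ≤ e))).map phi).prod * tailG 62) < B := by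
  induction L generalizing A B with
  | nil =>
    have h' : A * 4611686018427387904 < B * 4611686018427387900 := (blt_iff _ _).1 h
    have h'' : (A : ℚ) * 4611686018427387904 < B * 4611686018427387900 := by exact_mod_cast h'
    simp only [List.filter_nil, List.map_nil, List.prod_nil, one_mul, tailG]
    rw [← mul_div_assoc, div_lt_iff₀ (by norm_num)]
    norm_num
    linarith
  | cons e L ih =>
    have hr : remM y (e :: L) A B = cond (Nat.ble y e) (remM y L (A * (e + 1)) (B * (e - 1)))
      (remM y L A B) := rfl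
    rw [hr] at h
    have hL' : ∀ e ∈ L, 2 ≤ e := fun x hx => hL x (List.mem_cons_of_mem _ hx)
    cases hb : Nat.ble y e
    · rw [hb, cond_false] at h
      have := ble_false hb
      rw [List.filter_cons_of_neg (by simp; omega)]
      exact ih hL' A B h
    · rw [hb, cond_true] at h
      have := Nat.le_of_ble_eq_true hb
      rw [List.filter_cons_of_pos (by simp; omega), List.map_cons, List.prod_cons, mul_assoc]
      exact mul_phi (hL e List.mem_cons_self) (ih hL' _ _ h)

lemma remL_spec (y : ℕ) (hy : 2 ≤ y) (R : List ℕ) (A B : ℕ) (h : remL y R A B = true) :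
    (A : ℚ) * W y R < B := by
  induction R generalizing A B with
  | nil =>
    have := remM_spec y mers (by decide) A B h
    simpa [W] using this
  | cons r R ih =>
    have hr : remL y (r :: R) A B = force (cond (Nat.ble y (2 * r - 1)) (2 * r - 1) y) fun m =>
        remL y R (A * (m + 1)) (B * (m - 1)) := rfl
    rw [hr, force_eq] at h
    have hm : cond (Nat.ble y (2 * r - 1)) (2 * r - 1) y = max y (2 * r - 1) := by
      cases hb : Nat.ble y (2 * r - 1)
      · have := ble_false hb
        rw [cond_false, max_eq_left (by omega)]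
      · have := Nat.le_of_ble_eq_true hb
        rw [cond_true, max_eq_right this]
    rw [hm] at h
    have := mul_phi (by omega) (ih _ _ h)
    unfold W at this ⊢
    rw [List.map_cons, List.prod_cons, mul_assoc]
    exact this

lemma pows_spec (y h : ℕ) (c : ℕ → Bool) (f v : ℕ) (hp : pows y h c f v = true) (j : ℕ)
    (h1 : y < 2 ^ j * v) (h2 : 2 ^ j * v ≤ h) : c (2 ^ j * v) = true := by
  induction f generalizing v j with
  | zero => exact absurd hp (by simp [pows])
  | succ f ih =>
    have hr : pows y h c (f + 1) v = cond (Nat.blt h v) true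
      (cond (cond (Nat.ble v y) true (c v)) (force (2 * v) (pows y h c f)) false) := rfl
    rw [hr, force_eq] at hp
    have hv : v ≤ 2 ^ j * v := Nat.le_mul_of_pos_left _ (by positivity)
    cases hb : Nat.blt h v
    · rw [hb, cond_false] at hp
      cases hc : cond (Nat.ble v y) true (c v)
      · rw [hc] at hp; cases hp
      · rw [hc, cond_true] at hp
        cases j with
        | zero =>
          rw [pow_zero, one_mul] at h1 ⊢
          cases hd : Nat.ble v y
          · rw [hd] at hc; exact hc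
          · have := Nat.le_of_ble_eq_true hd; omega
        | succ j =>
          have e : 2 ^ (j + 1) * v = 2 ^ j * (2 * v) := by ring
          rw [e] at h1 h2 ⊢
          exact ih _ hp j h1 h2
    · have := (blt_iff _ _).1 hb; omega

lemma subs_spec (h : ℕ) (k : ℕ → List ℕ → Bool) (D : ℕ → Bool) (R : List ℕ)
    (hR : ∀ x ∈ R, 1 ≤ x) (p : ℕ) (rest : List ℕ) (hs : subs h k R p rest = true)
    (hle : p * (R.filter D).prod ≤ h) :
    k (p * (R.filter D).prod) ((R.filter (fun x => !D x)).reverse ++ rest) = true := by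
  induction R generalizing p rest with
  | nil =>
    have h' : k p rest = true := hs
    simpa using h'
  | cons x R ih =>
    have hr : subs h k (x :: R) p rest = cond (subs h k R p (x :: rest))
      (force (p * x) fun p' => cond (Nat.blt h p') true (subs h k R p' rest)) false := rfl
    rw [hr, force_eq] at hs
    have hR' : ∀ x ∈ R, 1 ≤ x := fun z hz => hR z (List.mem_cons_of_mem _ hz)
    cases hb : subs h k R p (x :: rest)
    · rw [hb] at hs; cases hs
    · rw [hb, cond_true] at hs
      cases hD : D x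
      · rw [List.filter_cons_of_neg (by simp [hD])] at hle ⊢
        rw [List.filter_cons_of_pos (by simp [hD]), List.reverse_cons, List.append_assoc]
        exact ih hR' p (x :: rest) hb hle
      · rw [List.filter_cons_of_pos hD, List.prod_cons, ← mul_assoc] at hle ⊢
        rw [List.filter_cons_of_neg (by simp [hD])]
        have h1 : 1 ≤ (R.filter D).prod :=
          List.one_le_prod_of_one_le fun z hz => hR' z (List.mem_of_mem_filter hz)
        have h2 : p * x ≤ h := le_trans (Nat.le_mul_of_pos_right _ h1) hle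
        cases hc : Nat.blt h (p * x)
        · rw [hc, cond_false] at hs
          exact ih hR' _ rest hs hle
        · have := (blt_iff _ _).1 hc; omega

lemma findH_spec (t k : ℕ → Bool) (f h : ℕ) (hs : findH t k f h = true) :
    ∃ h', h ≤ h' ∧ t h' = true ∧ k h' = true := by
  induction f generalizing h with
  | zero => exact absurd hs (by simp [findH])
  | succ f ih =>
    have hr : findH t k (f + 1) h = cond (t h) (k h) (force (2 * h) (findH t k f)) := rfl
    rw [hr, force_eq] at hs
    cases hb : t h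
    · rw [hb, cond_false] at hs
      obtain ⟨h', h1, h2⟩ := ih _ hs
      exact ⟨h', by omega, h2⟩
    · rw [hb, cond_true] at hs
      exact ⟨h, le_rfl, hb, hs⟩

def PN (Q : Finset ℕ) (y : ℕ) : ℕ := ∏ q ∈ Q.filter (fun q => ¬ y ≤ q), (q + 1)
def PD (Q : Finset ℕ) (y : ℕ) : ℕ := ∏ q ∈ Q.filter (fun q => ¬ y ≤ q), q
def TT (Q : Finset ℕ) : ℚ := ∏ q ∈ Q, (((q : ℚ) + 1) / q)

lemma PD_pos {Q : Finset ℕ} (hQ : Good Q) (y : ℕ) : 0 < PD Q y :=
  Finset.prod_pos fun q hq => (hQ.prime q (Finset.mem_filter.1 hq).1).pos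

lemma PN_pos (Q : Finset ℕ) (y : ℕ) : 0 < PN Q y :=
  Finset.prod_pos fun q _ => Nat.succ_pos q

lemma TT_split (Q : Finset ℕ) (y : ℕ) :
    TT Q = (PN Q y : ℚ) / PD Q y * ∏ q ∈ Q.filter (fun q => y ≤ q), (((q : ℚ) + 1) / q) := by
  unfold TT PN PD
  rw [← Finset.prod_filter_mul_prod_filter_not Q (fun q => y ≤ q), mul_comm]
  congr 1
  push_cast
  rw [Finset.prod_div_distrib]

lemma gap {Q : Finset ℕ} {y h : ℕ} (hyh : y ≤ h) (hg : ∀ q ∈ Q, y ≤ q → h ≤ q) {R : List ℕ}
    (hI : Inv Q y R) : Inv Q h R ∧ PN Q h = PN Q y ∧ PD Q h = PD Q y := by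
  have e : Q.filter (fun q => ¬ h ≤ q) = Q.filter (fun q => ¬ y ≤ q) := by
    apply Finset.filter_congr
    intro q hq
    have := hg q hq
    constructor <;> intro h1 h2 <;> apply h1 <;> omega
  refine ⟨⟨hI.nodup, fun r hr => ⟨(hI.sub r hr).1, by have := (hI.sub r hr).2; omega⟩, ?_⟩,
    by unfold PN; rw [e], by unfold PD; rw [e]⟩
  intro r hr hlt q hq hhq hd
  have := hg r hr
  exact hI.all r hr (by omega) q hq (by omega) hd

lemma small_contra {Q : Finset ℕ} (hQ : Good Q) {y h : ℕ} (hy : 3 ≤ y) (hyh : y ≤ h)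
    (hg : ∀ q ∈ Q, y ≤ q → h ≤ q) {R : List ℕ} (hI : Inv Q y R) {ln ld : ℕ} (hld : 0 < ld)
    (hlo : (ln : ℚ) / ld ≤ TT Q) (hs : remL h R (PN Q y * ld) (PD Q y * ln) = true) : False := by
  obtain ⟨hI', e1, e2⟩ := gap hyh hg hI
  have hb := bound hQ (by omega) hI'
  have h1 := remL_spec h (by omega) R _ _ hs
  rw [TT_split Q h, e1, e2] at hlo
  have hpd : (0 : ℚ) < PD Q y := by exact_mod_cast PD_pos hQ y
  have hpn : (0 : ℚ) < PN Q y := by exact_mod_cast PN_pos Q y
  have hld' : (0 : ℚ) < ld := by exact_mod_cast hld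
  have h2 : (ln : ℚ) / ld ≤ (PN Q y : ℚ) / PD Q y * W h R :=
    le_trans hlo (mul_le_mul_of_nonneg_left hb (by positivity))
  rw [div_mul_eq_mul_div, div_le_div_iff₀ hld' hpd] at h2
  push_cast at h1
  linarith

lemma factor_succ {Q : Finset ℕ} (hQ : Good Q) {q : ℕ} (hq : q ∈ Q) {R : List ℕ}
    (hI : Inv Q q R) :
    ∃ j, q + 1 = 2 ^ j * (2 * (R.filter (fun x => decide (x ∣ q + 1))).prod) := by
  obtain ⟨j, u, hu, e⟩ := Nat.exists_eq_two_pow_mul_odd (show q + 1 ≠ 0 by omega)
  have hud : u ∣ q + 1 := ⟨2 ^ j, by rw [e]; ring⟩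
  have hne2 : ∀ r, r ∣ u → r ≠ 2 := by
    rintro r hr rfl
    exact (Nat.not_even_iff_odd.2 hu) (even_iff_two_dvd.2 hr)
  have hsq : Squarefree u := by
    rw [Nat.squarefree_iff_prime_squarefree]
    intro r hr hd
    exact hQ.sq q hq r hr (hne2 r (dvd_trans (Dvd.intro r rfl) hd)) (dvd_trans hd hud)
  have hset : u.primeFactors = (R.filter (fun x => decide (x ∣ q + 1))).toFinset := by
    ext r
    simp only [Nat.mem_primeFactors, List.mem_toFinset, List.mem_filter, decide_eq_true_eq]
    constructor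
    · rintro ⟨h1, h2, _⟩
      have h3 := dvd_trans h2 hud
      have h4 := Nat.le_of_dvd (by omega) (hQ.two_mul_dvd hq h1 (hne2 r h2) h3)
      have := h1.two_le
      exact ⟨hI.all r (hQ.mem q hq r h1 (hne2 r h2) h3) (by omega) q hq le_rfl h3, h3⟩
    · rintro ⟨h1, h2⟩
      have hm := (hI.sub r h1).1
      have hp := hQ.prime r hm
      refine ⟨hp, ?_, by rintro rfl; simp at e⟩
      rw [e] at h2
      refine Nat.Coprime.dvd_of_dvd_mul_left ?_ h2
      exact Nat.Coprime.pow_right _ ((Nat.coprime_primes hp Nat.prime_two).2 (hQ.odd r hm))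
  have hprod : u = (R.filter (fun x => decide (x ∣ q + 1))).prod := by
    rw [← Nat.prod_primeFactors_of_squarefree hsq, hset,
      List.prod_toFinset _ (hI.nodup.filter _), List.map_id']
  have hodd := (hQ.prime q hq).eq_two_or_odd.resolve_left (hQ.odd q hq)
  cases j with
  | zero =>
    rw [pow_zero, one_mul] at e
    obtain ⟨c, hc⟩ := hu
    omega
  | succ j => exact ⟨j, by rw [← hprod, e]; ring⟩

lemma next_inv {Q : Finset ℕ} (hQ : Good Q) {q : ℕ} (hq : q ∈ Q) {R : List ℕ} (hI : Inv Q q R) :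
    Inv Q (q + 1) (q :: ((R.filter (fun x => !decide (x ∣ q + 1))).reverse ++ [])) ∧
      PN Q (q + 1) = PN Q q * (q + 1) ∧ PD Q (q + 1) = PD Q q * q := by
  have e : Q.filter (fun x => ¬ q + 1 ≤ x) = insert q (Q.filter (fun x => ¬ q ≤ x)) := by
    ext x
    simp only [Finset.mem_filter, Finset.mem_insert]
    constructor
    · rintro ⟨h1, h2⟩
      by_cases hx : x = q
      · exact Or.inl hx
      · exact Or.inr ⟨h1, by omega⟩
    · rintro (rfl | ⟨h1, h2⟩)
      · exact ⟨hq, by omega⟩
      · exact ⟨h1, by omega⟩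
  have hn : q ∉ Q.filter (fun x => ¬ q ≤ x) := by simp
  refine ⟨⟨?_, ?_, ?_⟩, ?_, ?_⟩
  · rw [List.append_nil, List.nodup_cons, List.nodup_reverse]
    refine ⟨fun h => ?_, hI.nodup.filter _⟩
    have := (hI.sub q (List.mem_of_mem_filter (List.mem_reverse.1 h))).2
    omega
  · intro r hr
    rw [List.append_nil, List.mem_cons] at hr
    rcases hr with rfl | hr
    · exact ⟨hq, by omega⟩
    · have := hI.sub r (List.mem_of_mem_filter (List.mem_reverse.1 hr))
      exact ⟨this.1, by omega⟩
  · intro r hr hlt q' hq' hle hd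
    rw [List.append_nil, List.mem_cons]
    by_cases hrq : r = q
    · exact Or.inl hrq
    · right
      rw [List.mem_reverse, List.mem_filter]
      refine ⟨hI.all r hr (by omega) q' hq' (by omega) hd, ?_⟩
      simp only [Bool.not_eq_eq_eq_not, Bool.not_true, decide_eq_false_iff_not]
      intro hd'
      have := hQ.uniq q hq q' hq' r (hQ.prime r hr) (hQ.odd r hr) hd' hd
      omega
  · unfold PN; rw [e, Finset.prod_insert hn, mul_comm]
  · unfold PD; rw [e, Finset.prod_insert hn, mul_comm]

lemma step_sound {Q : Finset ℕ} (hQ : Good Q) {ln ld hn hd good : ℕ} (hld : 0 < ld) (hhd : 0 < hd)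
    (hlo : (ln : ℚ) / ld ≤ TT Q) (hhi : TT Q ≤ (hn : ℚ) / hd)
    (k : ℕ → List ℕ → ℕ → ℕ → Bool)
    (hk : ∀ y R, 3 ≤ y → Inv Q y R → k y R (PN Q y) (PD Q y) = true → ∏ q ∈ Q, q = good)
    (y : ℕ) (R : List ℕ) (hy : 3 ≤ y) (hI : Inv Q y R)
    (hs : step ln ld hn hd good k y R (PN Q y) (PD Q y) = true) : ∏ q ∈ Q, q = good := by
  unfold step at hs
  have hpd : (0 : ℚ) < PD Q y := by exact_mod_cast PD_pos hQ y
  have hpn : (0 : ℚ) < PN Q y := by exact_mod_cast PN_pos Q y
  have hhd' : (0 : ℚ) < hd := by exact_mod_cast hhd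
  have hone : ∀ q ∈ Q.filter (fun q => y ≤ q), (1 : ℚ) < ((q : ℚ) + 1) / q := by
    intro q hq
    have : (0 : ℚ) < q := by exact_mod_cast (hQ.prime q (Finset.mem_filter.1 hq).1).pos
    rw [lt_div_iff₀ this]; linarith
  cases h1 : Nat.ble (Nat.mul hn (PD Q y)) (Nat.mul (PN Q y) hd)
  · rw [h1, cond_false, force_eq, force_eq] at hs
    change cond (remL y R (PN Q y * ld) (PD Q y * ln)) true _ = true at hs
    cases h2 : remL y R (PN Q y * ld) (PD Q y * ln)
    · rw [h2, cond_false, force_eq] at hs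
      obtain ⟨h, hh1, hh2, hh3⟩ := findH_spec _ _ _ _ hs
      change 2 * y ≤ h at hh1
      by_cases hne : (Q.filter (fun q => y ≤ q)).Nonempty
      swap
      · exact (small_contra hQ hy (by omega : y ≤ h)
          (fun q hq hyq => absurd ⟨q, Finset.mem_filter.2 ⟨hq, hyq⟩⟩ hne) hI hld hlo hh2).elim
      set q := (Q.filter (fun q => y ≤ q)).min' hne
      have hqm := Finset.mem_filter.1 ((Q.filter (fun q => y ≤ q)).min'_mem hne)
      change q ∈ Q ∧ y ≤ q at hqm
      have hmin : ∀ x ∈ Q, y ≤ x → q ≤ x := fun x hx hyx =>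
        Finset.min'_le _ _ (Finset.mem_filter.2 ⟨hx, hyx⟩)
      by_cases hqh : h ≤ q
      · exact (small_contra hQ hy (by omega : y ≤ h)
          (fun x hx hyx => le_trans hqh (hmin x hx hyx)) hI hld hlo hh2).elim
      obtain ⟨hI', e1, e2⟩ := gap hqm.2 hmin hI
      obtain ⟨j, hj⟩ := factor_succ hQ hqm.1 hI'
      have hle : 2 * (R.filter (fun x => decide (x ∣ q + 1))).prod ≤ q + 1 := by
        conv_rhs => rw [hj]
        exact Nat.le_mul_of_pos_left _ (by positivity)
      have h3 := subs_spec h _ (fun x => decide (x ∣ q + 1)) R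
        (fun x hx => (hQ.prime x (hI.sub x hx).1).pos) 2 [] hh3 (by omega)
      have h4 := pows_spec _ _ _ _ _ h3 j (by omega) (by omega)
      rw [← hj] at h4
      unfold cand at h4
      rw [force_eq] at h4
      change cond (comp q) true (cond (remL q R (PN Q y * ld) (PD Q y * ln)) true _) = true at h4
      rw [comp_prime (hQ.prime q hqm.1), cond_false] at h4
      cases h5 : remL q R (PN Q y * ld) (PD Q y * ln)
      · rw [h5, cond_false, force_eq, force_eq] at h4
        obtain ⟨hI2, e3, e4⟩ := next_inv hQ hqm.1 hI'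
        apply hk (q + 1) _ (by omega) hI2
        rw [e3, e4, e1, e2]
        exact h4
      · exact (small_contra hQ hy hqm.2 hmin hI hld hlo h5).elim
    · exact (small_contra hQ hy le_rfl (fun _ _ h => h) hI hld hlo h2).elim
  · rw [h1, cond_true] at hs
    have h2 : hn * PD Q y ≤ PN Q y * hd := Nat.le_of_ble_eq_true h1
    have h2' : (hn : ℚ) / hd ≤ (PN Q y : ℚ) / PD Q y := by
      rw [div_le_div_iff₀ hhd' hpd]; exact_mod_cast h2
    have hP : (0 : ℚ) < (PN Q y : ℚ) / PD Q y := by positivity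
    have hemp : Q.filter (fun q => y ≤ q) = ∅ := by
      by_contra hne
      have h3 : (1 : ℚ) < ∏ q ∈ Q.filter (fun q => y ≤ q), (((q : ℚ) + 1) / q) := by
        calc (1 : ℚ) = ∏ q ∈ Q.filter (fun q => y ≤ q), 1 := by simp
          _ < _ := Finset.prod_lt_prod_of_nonempty (by simp) hone
            (Finset.nonempty_iff_ne_empty.2 hne)
      rw [TT_split Q y] at hhi
      nlinarith
    rw [TT_split Q y, hemp, Finset.prod_empty, mul_one, div_le_div_iff₀ hpd hhd'] at hhi
    have h3 : PN Q y * hd ≤ hn * PD Q y := by exact_mod_cast hhi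
    cases h4 : Nat.blt (Nat.mul hn (PD Q y)) (Nat.mul (PN Q y) hd)
    · rw [h4, cond_false] at hs
      rw [← Nat.eq_of_beq_eq_true hs]
      unfold PD
      congr 1
      symm
      rw [Finset.filter_eq_self]
      intro q hq hyq
      have : q ∈ Q.filter (fun q => y ≤ q) := Finset.mem_filter.2 ⟨hq, hyq⟩
      rw [hemp] at this
      simp at this
    · have : hn * PD Q y < PN Q y * hd := (blt_iff _ _).1 h4
      omega

theorem chk_sound {Q : Finset ℕ} (hQ : Good Q) {ln ld hn hd good : ℕ} (hld : 0 < ld)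
    (hhd : 0 < hd) (hlo : (ln : ℚ) / ld ≤ TT Q) (hhi : TT Q ≤ (hn : ℚ) / hd) (f : ℕ)
    (hs : chk ln ld hn hd good f 3 [] 1 1 = true) : ∏ q ∈ Q, q = good := by
  have key : ∀ f y R, 3 ≤ y → Inv Q y R →
      chk ln ld hn hd good f y R (PN Q y) (PD Q y) = true → ∏ q ∈ Q, q = good := by
    intro f
    induction f with
    | zero => intro y R _ _ h; exact absurd h (by simp [chk])
    | succ f ih => exact step_sound hQ hld hhd hlo hhi _ ih
  have e : Q.filter (fun q => ¬ 3 ≤ q) = ∅ := by
    rw [Finset.filter_eq_empty_iff]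
    intro q hq h
    exact h (hQ.three hq)
  apply key f 3 [] le_rfl ⟨List.nodup_nil, by simp, ?_⟩
  · unfold PN PD
    rw [e]; simpa using hs
  · intro r hr hlt
    have := hQ.three hr
    omega

end Pool.Agent.P.MP_61a291_nt
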